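import Pool.Agent.SSF.Stmts

/-!
# Row QRM of squad SSF: the projection is a left inverse of the embedding
-/

set_option autoImplicit false

open Set Topology
open scoped BigOperators

namespace Pool.Agent.SSF.H30

open Pool.Agent.LSG Pool.Agent.LPR Pool.Agent.SSF

theorem qrm : GmcStmt → UnmStmt → QrmStmt := by
  intro hgmc hunm S M _ _ _ O ρ χ ψ K c p η w θ ν hP hQ hC hW F hF x n
  obtain ⟨s, t⟩ := x
  obtain ⟨hu1, hu2⟩ := hunm S M O ρ χ ψ K c p η w θ hP hQ hC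
  have hG : ∀ m k : ℕ,
      (∀ (s : S) (n : ℕ) (u : M), Gm (η m k) (ψ m k) F (s, η m k n u) =
        ψ m k (s, u) * F ((s, u), ((n : ℕ) : OnePoint ℕ))) ∧
      ∀ s : S, Gm (η m k) (ψ m k) F (s, p m k) = 0 := by
    intro m k
    have h := hgmc S M (p m k) (η m k) ((1 / 2 : ℝ) ^ (m + 6)) (ψ m k) F (hQ.cont m k)
      (hQ.inj m k) (hQ.ne m k) (hQ.conv m k) (hP.psi01 m k) hF.1 hF.2.2
    exact ⟨h.1, h.2.1⟩
  have hval : ∀ (m k : ℕ) (a : M), ψ m k (s, t) ≠ 0 → w m k a = 1 →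
      a ∈ Lim (p m k) (η m k) →
      im θ ρ ψ η w ν F (s, a) = Gm (η m k) (ψ m k) F (s, a) := by
    intro m k a hψ hw ha
    have hw0 : w m k a ≠ 0 := by rw [hw]; exact one_ne_zero
    have hθ : θ m (ρ (s, a)) = 1 := (hu2 s a t m k hw0 hψ).2
    have hne : θ m (ρ (s, a)) * w m k a ≠ 0 := by
      rw [hθ, hw, one_mul]
      exact one_ne_zero
    unfold im
    rw [finsum_eq_single _ (m, k)]
    · show θ m (ρ (s, a)) * w m k a * ((ν m k a).sum fun b r =>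
        r * Gm (η m k) (ψ m k) F (s, b)) = _
      rw [hθ, hw, hW.fix m k a ha, Finsupp.sum_single_index (zero_mul _)]
      ring
    · rintro ⟨m', k'⟩ hα
      have h0 : θ m' (ρ (s, a)) * w m' k' a = 0 := by
        by_contra h
        obtain ⟨e1, e2⟩ := hu1 (s, a) m' k' m k h hne
        exact hα (by rw [e1, e2])
      show θ m' (ρ (s, a)) * w m' k' a * _ = 0
      rw [h0, zero_mul]
  have hterm : ∀ α : ℕ × ℕ, χ α.1 α.2 (s, t) *
      (im θ ρ ψ η w ν F (s, η α.1 α.2 n t) - im θ ρ ψ η w ν F (s, p α.1 α.2)) =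
      χ α.1 α.2 (s, t) * F ((s, t), (n : OnePoint ℕ)) := by
    rintro ⟨m, k⟩
    show χ m k (s, t) * (im θ ρ ψ η w ν F (s, η m k n t) - im θ ρ ψ η w ν F (s, p m k)) =
      χ m k (s, t) * F ((s, t), (n : OnePoint ℕ))
    by_cases hχ : χ m k (s, t) = 0
    · rw [hχ, zero_mul, zero_mul]
    · have hψ1 : ψ m k (s, t) = 1 := hP.one m k _ hχ
      have hψ : ψ m k (s, t) ≠ 0 := by rw [hψ1]; exact one_ne_zero
      have hk : k < K m := (hP.supp m k _ hψ).1
      rw [hval m k _ hψ (hQ.one m k n t hk) (Or.inr ⟨n, t, rfl⟩),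
        hval m k _ hψ (hQ.onep m k hk) (Or.inl rfl), (hG m k).1, (hG m k).2, hψ1, one_mul,
        sub_zero]
  show ∑ᶠ α : ℕ × ℕ, χ α.1 α.2 (s, t) *
      (im θ ρ ψ η w ν F (s, η α.1 α.2 n t) - im θ ρ ψ η w ν F (s, p α.1 α.2)) = _
  rw [finsum_congr hterm]
  by_cases hx : (s, t) ∈ O
  · have h1 := hP.cover (s, t) hx
    rw [← finsum_mul, h1, one_mul]
  · rw [hF.2.1 _ hx]
    simp only [mul_zero, finsum_zero]

end Pool.Agent.SSF.H30
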