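import Pool.Agent.SSF.Stmts

/-!
# Row HAM of squad SSF: partition in the scale, and two cutoffs
-/

set_option autoImplicit false

open Set Topology
open scoped BigOperators

namespace Pool.Agent.SSF.H30

open Pool.Agent.LSG Pool.Agent.LPR Pool.Agent.SSF

theorem half_mul (m k : ℕ) : (1 / 2 : ℝ) ^ (m + k) * 2 ^ m = (1 / 2) ^ k := by
  rw [pow_add, mul_right_comm, ← mul_pow]
  norm_num

theorem ham : Pool.Agent.LPR.HatStmt → HamStmt := by
  rintro ⟨h0, h01, h02, h03⟩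
  let cut : ℝ → ℝ → ℝ → ℕ → C(ℝ, ℝ) := fun a b d m =>
    ⟨fun r => max 0 (min 1 (min (r * 2 ^ m * a - 1) ((b - r * 2 ^ m) / d))), by fun_prop⟩
  have hcut : ∀ a b d m r, cut a b d m r =
      max 0 (min 1 (min (r * 2 ^ m * a - 1) ((b - r * 2 ^ m) / d))) := fun _ _ _ _ _ => rfl
  have c1 : ∀ a b d m r, 0 ≤ cut a b d m r ∧ cut a b d m r ≤ 1 := fun a b d m r =>
    ⟨le_max_left _ _, max_le zero_le_one (min_le_left _ _)⟩
  have c2 : ∀ a b d m r, 1 ≤ r * 2 ^ m * a - 1 → 1 ≤ (b - r * 2 ^ m) / d →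
      cut a b d m r = 1 := by
    intro a b d m r h1 h2
    rw [hcut, min_eq_left (le_min h1 h2), max_eq_right zero_le_one]
  have c3 : ∀ a b d m r, 0 < d → cut a b d m r ≠ 0 →
      1 < r * 2 ^ m * a ∧ r * 2 ^ m < b := by
    intro a b d m r hd h
    have h1 : 0 < min 1 (min (r * 2 ^ m * a - 1) ((b - r * 2 ^ m) / d)) := by
      by_contra h1
      exact h (max_eq_left (not_lt.1 h1))
    have h2 := lt_of_lt_of_le h1 (min_le_right _ _)
    have h3 := lt_of_lt_of_le h2 (min_le_left _ _)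
    have h4 := lt_of_lt_of_le h2 (min_le_right _ _)
    have h5 : 0 < b - r * 2 ^ m := by
      by_contra h5
      have := div_nonpos_of_nonpos_of_nonneg (not_lt.1 h5) hd.le
      linarith
    exact ⟨by linarith, by linarith⟩
  have hP : ∀ m : ℕ, (0 : ℝ) < 2 ^ m := fun m => by positivity
  have lo : ∀ (m k : ℕ) (r : ℝ), (1 / 2 : ℝ) ^ (m + k) < r ↔ (1 / 2 : ℝ) ^ k < r * 2 ^ m := by
    intro m k r
    rw [← half_mul m k]
    exact (mul_lt_mul_iff_left₀ (hP m)).symm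
  have lo' : ∀ (m k : ℕ) (r : ℝ), (1 / 2 : ℝ) ^ (m + k) ≤ r ↔ (1 / 2 : ℝ) ^ k ≤ r * 2 ^ m := by
    intro m k r
    rw [← half_mul m k]
    exact (mul_le_mul_iff_left₀ (hP m)).symm
  have e0 : ∀ m : ℕ, (1 / 2 : ℝ) ^ m * 2 ^ m = 1 := fun m => by
    rw [← mul_pow]
    norm_num
  have hi : ∀ (m : ℕ) (b r : ℝ), r < b * (1 / 2 : ℝ) ^ m ↔ r * 2 ^ m < b := by
    intro m b r
    rw [← mul_lt_mul_iff_left₀ (hP m), mul_assoc, e0, mul_one]
  have hi' : ∀ (m : ℕ) (b r : ℝ), r ≤ b * (1 / 2 : ℝ) ^ m ↔ r * 2 ^ m ≤ b := by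
    intro m b r
    rw [← mul_le_mul_iff_left₀ (hP m), mul_assoc, e0, mul_one]
  refine ⟨fun m => (h0 m) ^ 2, fun m => cut 4 4 2 m, fun m => cut 16 16 8 m, ?_, ?_, ?_, ?_,
    ?_, ?_, ?_, ?_⟩
  · intro m r
    exact sq_nonneg (h0 m r)
  · exact fun m r => c1 _ _ _ m r
  · exact fun m r => c1 _ _ _ m r
  · intro m r h
    have h1 : h0 m r ≠ 0 := by
      intro h1
      apply h
      show (h0 m r) ^ 2 = 0
      rw [h1]
      norm_num
    obtain ⟨h2, h3⟩ := h02 m r h1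
    rw [lo m 1 r] at h2
    rw [hi] at h3
    refine c2 _ _ _ m r ?_ ?_
    · linarith
    · linarith
  · intro m r h
    obtain ⟨h1, h2⟩ := c3 _ _ _ m r (by norm_num) h
    rw [lo, hi]
    refine ⟨?_, h2⟩
    norm_num
    linarith
  · intro m r h1 h2
    rw [lo'] at h1
    rw [hi'] at h2
    norm_num at h1
    refine c2 _ _ _ m r ?_ ?_
    · linarith
    · linarith
  · intro m r h
    obtain ⟨h1, h2⟩ := c3 _ _ _ m r (by norm_num) h
    rw [lo, hi]
    refine ⟨?_, h2⟩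
    norm_num
    linarith
  · intro r hr hr1
    obtain ⟨j, hj1, hj2⟩ := h03 r hr hr1
    refine ⟨j, fun m hm => hj1 m fun h1 => hm ?_, hj2⟩
    show (h0 m r) ^ 2 = 0
    rw [h1]
    norm_num

end Pool.Agent.SSF.H30
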